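import Pool.Agent.NH10.FH.Stm

/-!
# Project FH: from averages to values of a slowly varying function (helper93, job 983)
-/

set_option autoImplicit false

open Filter Topology Set MeasureTheory

namespace Pool.Agent.NH10.FH

namespace Deavg

/-- the partial sums -/
noncomputable def S (J : ℝ → ℝ) (ℓ : ℝ) (N : ℕ) : ℝ := ∑ n ∈ Finset.range N, (J n - ℓ)

theorem S_sub (J : ℝ → ℝ) (ℓ : ℝ) {a b : ℕ} (h : a ≤ b) :
    S J ℓ b - S J ℓ a = ∑ n ∈ Finset.Ico a b, (J n - ℓ) :=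
  (Finset.sum_Ico_eq_sub _ h).symm

/-- the recursion -/
theorem rec_bd {J : ℝ → ℝ} {ℓ c : ℝ} (hc : 0 < c) (hc1 : c < 1)
    (h : Tendsto (fun T : ℝ => (∑ n ∈ II c T, J n) / ((II c T).card : ℝ)) atTop (𝓝 ℓ))
    {ε : ℝ} (hε : 0 < ε) : ∃ N₀ : ℕ, ∀ N ≥ N₀, ∃ k : ℕ, k < N ∧ (k : ℝ) ≤ (1 + c) / 2 * N ∧
      |S J ℓ N| ≤ |S J ℓ k| + ε * N := by
  have h1 : ∀ᶠ T : ℝ in atTop, |(∑ n ∈ II c T, J n) / ((II c T).card : ℝ) - ℓ| < ε := by
    have := (tendsto_order.1 (tendsto_iff_dist_tendsto_zero.1 h)).2 ε hε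
    simpa [Real.dist_eq] using this
  obtain ⟨T₀, hT₀⟩ := eventually_atTop.1 h1
  obtain ⟨N₁, hN₁⟩ := exists_nat_ge (max T₀ (4 / (1 - c) + 4))
  refine ⟨N₁, fun N hN => ⟨⌊c * N⌋₊ + 2, ?_⟩⟩
  have hNr : (N₁ : ℝ) ≤ N := by exact_mod_cast hN
  have hN2 : 4 / (1 - c) + 4 ≤ (N : ℝ) := (le_max_right _ _).trans (hN₁.trans hNr)
  have hN3 : T₀ ≤ (N : ℝ) := (le_max_left _ _).trans (hN₁.trans hNr)
  have hc2 : 0 < 1 - c := by linarith
  have hN4 : 4 < (1 - c) * N := by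
    have h2 : 4 / (1 - c) < N := by linarith
    rw [div_lt_iff₀ hc2] at h2
    linarith
  have hfl : ((⌊c * N⌋₊ : ℕ) : ℝ) ≤ c * N := Nat.floor_le (by positivity)
  have hk : ((⌊c * N⌋₊ + 2 : ℕ) : ℝ) ≤ (1 + c) / 2 * N := by
    push_cast
    linarith
  have hkN : ⌊c * N⌋₊ + 2 < N := by
    have : ((⌊c * N⌋₊ + 2 : ℕ) : ℝ) < N := by
      push_cast
      linarith
    exact_mod_cast this
  refine ⟨hkN, hk, ?_⟩
  have hII : II c N = Finset.Ico (⌊c * N⌋₊ + 2) N := by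
    unfold II
    rw [Nat.floor_natCast]
    ext x
    rw [Finset.mem_Ioc, Finset.mem_Ico]
    omega
  have h2 := hT₀ N hN3
  rw [hII, Nat.card_Ico] at h2
  have hcard : (0 : ℝ) < ((N - (⌊c * N⌋₊ + 2) : ℕ) : ℝ) := by
    exact_mod_cast (by omega : 0 < N - (⌊c * N⌋₊ + 2))
  have h3 : ∑ n ∈ Finset.Ico (⌊c * N⌋₊ + 2) N, (J n - ℓ) =
      ((∑ n ∈ Finset.Ico (⌊c * N⌋₊ + 2) N, J n) / ((N - (⌊c * N⌋₊ + 2) : ℕ) : ℝ) - ℓ) *
        ((N - (⌊c * N⌋₊ + 2) : ℕ) : ℝ) := by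
    rw [Finset.sum_sub_distrib, Finset.sum_const, Nat.card_Ico, nsmul_eq_mul, sub_mul,
      div_mul_cancel₀ _ hcard.ne']
    ring
  have h4 := S_sub J ℓ hkN.le
  rw [h3] at h4
  have h5 : |S J ℓ N - S J ℓ (⌊c * N⌋₊ + 2)| ≤ ε * N := by
    rw [h4, abs_mul, abs_of_pos hcard]
    have h6 : ((N - (⌊c * N⌋₊ + 2) : ℕ) : ℝ) ≤ N := by exact_mod_cast Nat.sub_le _ _
    exact mul_le_mul h2.le h6 hcard.le hε.le
  have h6 := abs_sub_abs_le_abs_sub (S J ℓ N) (S J ℓ (⌊c * N⌋₊ + 2))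
  linarith

/-- the partial sums are small -/
theorem small {J : ℝ → ℝ} {ℓ c : ℝ} (hc : 0 < c) (hc1 : c < 1)
    (h : Tendsto (fun T : ℝ => (∑ n ∈ II c T, J n) / ((II c T).card : ℝ)) atTop (𝓝 ℓ))
    {ε : ℝ} (hε : 0 < ε) : ∃ K : ℝ, 0 ≤ K ∧ ∀ N : ℕ, |S J ℓ N| ≤ ε * N + K := by
  have hd : 0 < 1 - (1 + c) / 2 := by linarith
  obtain ⟨N₀, hN₀⟩ := rec_bd hc hc1 h (mul_pos hε hd)
  refine ⟨∑ n ∈ Finset.range N₀, |S J ℓ n|, Finset.sum_nonneg fun _ _ => abs_nonneg _,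
    fun N => ?_⟩
  induction N using Nat.strong_induction_on with
  | _ N ih =>
    by_cases hN : N < N₀
    · have h1 : |S J ℓ N| ≤ ∑ n ∈ Finset.range N₀, |S J ℓ n| :=
        Finset.single_le_sum (f := fun n => |S J ℓ n|) (fun _ _ => abs_nonneg _)
          (Finset.mem_range.2 hN)
      have h2 : 0 ≤ ε * N := by positivity
      linarith
    · obtain ⟨k, hk1, hk2, hk3⟩ := hN₀ N (by omega)
      have h1 := ih k hk1
      have h2 : ε * k ≤ ε * ((1 + c) / 2 * N) := mul_le_mul_of_nonneg_left hk2 hε.le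
      linarith

/-- the values at the integers -/
theorem at_nat {J : ℝ → ℝ} {ℓ c C : ℝ} (hc : 0 < c) (hc1 : c < 1)
    (h2 : ∀ η : ℝ, 0 < η → η ≤ 1 → ∀ᶠ T in atTop, ∀ T' ∈ Icc T ((1 + η) * T),
      |J T' - J T| ≤ C * Real.sqrt η)
    (h : Tendsto (fun T : ℝ => (∑ n ∈ II c T, J n) / ((II c T).card : ℝ)) atTop (𝓝 ℓ))
    {δ η : ℝ} (hδ : 0 < δ) (hη : 0 < η) (hη1 : η ≤ 1) (hC : C * Real.sqrt η ≤ δ) :
    ∀ᶠ N : ℕ in atTop, |J N - ℓ| ≤ 3 * δ := by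
  obtain ⟨K, hK0, hK⟩ := small hc hc1 h (ε := δ * η / 6) (by positivity)
  have e1 : ∀ᶠ N : ℕ in atTop, ∀ T' ∈ Icc (N : ℝ) ((1 + η) * N), |J T' - J N| ≤ C * Real.sqrt η :=
    tendsto_natCast_atTop_atTop.eventually (h2 η hη hη1)
  have e2 : ∀ᶠ N : ℕ in atTop, 2 / η + 4 * K / (δ * η) + 1 ≤ (N : ℝ) :=
    tendsto_natCast_atTop_atTop.eventually (eventually_ge_atTop _)
  filter_upwards [e1, e2] with N hN1 hN2
  have hN0 : (0 : ℝ) < N := by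
    have : 0 ≤ 2 / η + 4 * K / (δ * η) := by positivity
    linarith
  have hN3 : 2 ≤ η * N := by
    have h3 : 2 / η ≤ N := by
      have : 0 ≤ 4 * K / (δ * η) := by positivity
      linarith
    rw [div_le_iff₀ hη] at h3
    linarith
  have hN4 : 4 * K ≤ δ * η * N := by
    have h3 : 4 * K / (δ * η) ≤ N := by
      have : 0 ≤ 2 / η := by positivity
      linarith
    rw [div_le_iff₀ (by positivity)] at h3
    linarith
  set M : ℕ := ⌊(1 + η) * (N : ℝ)⌋₊ with hM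
  have hM1 : (M : ℝ) ≤ (1 + η) * N := Nat.floor_le (by positivity)
  have hM2 : (1 + η) * N < (M : ℝ) + 1 := Nat.lt_floor_add_one _
  have hMN : N ≤ M := by
    rw [hM]
    refine Nat.le_floor ?_
    nlinarith
  have hMr : (N : ℝ) ≤ M := by exact_mod_cast hMN
  have h3 := S_sub J ℓ hMN
  -- the sum against the value at `N`
  have h4 : |∑ n ∈ Finset.Ico N M, (J n - ℓ) - ((M : ℝ) - N) * (J N - ℓ)| ≤ ((M : ℝ) - N) * δ := by
    have e3 : ∑ n ∈ Finset.Ico N M, (J n - ℓ) - ((M : ℝ) - N) * (J N - ℓ) =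
        ∑ n ∈ Finset.Ico N M, (J n - J N) := by
      have e4 : ∑ n ∈ Finset.Ico N M, (J n - J N) =
          ∑ n ∈ Finset.Ico N M, ((J n - ℓ) - (J N - ℓ)) :=
        Finset.sum_congr rfl fun n _ => by ring
      have e5 : ∑ n ∈ Finset.Ico N M, ((J n - ℓ) - (J N - ℓ)) =
          ∑ n ∈ Finset.Ico N M, (J n - ℓ) - ∑ n ∈ Finset.Ico N M, (J N - ℓ) :=
        Finset.sum_sub_distrib _ _
      have e6 : ∑ n ∈ Finset.Ico N M, (J N - ℓ) = ((M : ℝ) - N) * (J N - ℓ) := by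
        rw [Finset.sum_const, Nat.card_Ico, nsmul_eq_mul, Nat.cast_sub hMN]
      rw [e4, e5, e6]
    rw [e3]
    refine (Finset.abs_sum_le_sum_abs _ _).trans ?_
    have e5 : ∑ n ∈ Finset.Ico N M, |J n - J N| ≤ ∑ n ∈ Finset.Ico N M, δ := by
      refine Finset.sum_le_sum fun n hn => ?_
      obtain ⟨n1, n2⟩ := Finset.mem_Ico.1 hn
      refine (hN1 n ⟨by exact_mod_cast n1, ?_⟩).trans hC
      have : (n : ℝ) ≤ M := by exact_mod_cast n2.le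
      linarith
    refine e5.trans (le_of_eq ?_)
    rw [Finset.sum_const, Nat.card_Ico, nsmul_eq_mul, Nat.cast_sub hMN]
  rw [← h3] at h4
  have h5 := hK M
  have h6 := hK N
  have hMN2 : η * N / 2 ≤ (M : ℝ) - N := by linarith
  have hMNp : 0 < (M : ℝ) - N := by
    have : 0 < η * N / 2 := by positivity
    linarith
  have h7 : ((M : ℝ) - N) * |J N - ℓ| ≤ ((M : ℝ) - N) * δ + (|S J ℓ M| + |S J ℓ N|) := by
    have e6 : ((M : ℝ) - N) * |J N - ℓ| = |((M : ℝ) - N) * (J N - ℓ)| := by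
      rw [abs_mul, abs_of_pos hMNp]
    rw [e6]
    have e7 : ((M : ℝ) - N) * (J N - ℓ) = -(S J ℓ M - S J ℓ N - ((M : ℝ) - N) * (J N - ℓ)) +
        (S J ℓ M - S J ℓ N) := by ring
    rw [e7]
    refine (abs_add_le _ _).trans ?_
    rw [abs_neg]
    have e8 : |S J ℓ M - S J ℓ N| ≤ |S J ℓ M| + |S J ℓ N| := abs_sub _ _
    linarith
  have h8 : |S J ℓ M| + |S J ℓ N| ≤ ((M : ℝ) - N) * (2 * δ) := by
    have h9 : δ * η / 6 * M ≤ δ * η / 6 * (2 * N) := by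
      refine mul_le_mul_of_nonneg_left ?_ (by positivity)
      have : (1 + η) * (N : ℝ) ≤ 2 * N := mul_le_mul_of_nonneg_right (by linarith) hN0.le
      linarith
    have h10 : δ * η * N ≤ ((M : ℝ) - N) * (2 * δ) := by
      have := mul_le_mul_of_nonneg_right hMN2 (by positivity : (0 : ℝ) ≤ 2 * δ)
      linarith
    linarith
  have h9 : ((M : ℝ) - N) * |J N - ℓ| ≤ ((M : ℝ) - N) * (3 * δ) := by linarith
  exact le_of_mul_le_mul_left h9 hMNp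

end Deavg

open Deavg in
theorem t_DEAVG : S_DEAVG := by
  intro J ℓ c C hc hc1 _ h2 h
  rw [tendsto_iff_dist_tendsto_zero, tendsto_order]
  refine ⟨fun a ha => Eventually.of_forall fun T => lt_of_lt_of_le ha dist_nonneg, fun ε hε => ?_⟩
  set δ := ε / 5 with hδ
  have hδ0 : 0 < δ := by positivity
  obtain ⟨η, hη, hη1, hηC⟩ : ∃ η : ℝ, 0 < η ∧ η ≤ 1 ∧ C * Real.sqrt η ≤ δ := by
    have hC0 : 0 < |C| + 1 := by positivity
    refine ⟨min 1 ((δ / (|C| + 1)) ^ 2), lt_min one_pos (by positivity), min_le_left _ _, ?_⟩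
    have h3 : Real.sqrt (min 1 ((δ / (|C| + 1)) ^ 2)) ≤ δ / (|C| + 1) := by
      have := Real.sqrt_le_sqrt (min_le_right 1 ((δ / (|C| + 1)) ^ 2))
      rwa [Real.sqrt_sq (by positivity)] at this
    calc C * Real.sqrt (min 1 ((δ / (|C| + 1)) ^ 2)) ≤
          (|C| + 1) * Real.sqrt (min 1 ((δ / (|C| + 1)) ^ 2)) := by
          refine mul_le_mul_of_nonneg_right ?_ (Real.sqrt_nonneg _)
          have := le_abs_self C
          linarith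
      _ ≤ (|C| + 1) * (δ / (|C| + 1)) := mul_le_mul_of_nonneg_left h3 hC0.le
      _ = δ := by field_simp
  have h3 := at_nat hc hc1 h2 h hδ0 hη hη1 hηC
  obtain ⟨N₀, hN₀⟩ := eventually_atTop.1 h3
  filter_upwards [h2 η hη hη1, eventually_ge_atTop (max (N₀ : ℝ) (1 / η))] with T hT1 hT2
  have hT3 : (N₀ : ℝ) ≤ T := (le_max_left _ _).trans hT2
  have hT4 : 1 ≤ η * T := by
    have h4 : 1 / η ≤ T := (le_max_right _ _).trans hT2
    rw [div_le_iff₀ hη] at h4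
    linarith
  have hT0 : 0 ≤ T := (Nat.cast_nonneg _).trans hT3
  have h4 : T ≤ ((⌈T⌉₊ : ℕ) : ℝ) := Nat.le_ceil T
  have h5 : ((⌈T⌉₊ : ℕ) : ℝ) < T + 1 := Nat.ceil_lt_add_one hT0
  have h6 := hT1 ((⌈T⌉₊ : ℕ) : ℝ) ⟨h4, by linarith⟩
  have h7 := hN₀ ⌈T⌉₊ (by
    have : (N₀ : ℝ) ≤ ((⌈T⌉₊ : ℕ) : ℝ) := hT3.trans h4
    exact_mod_cast this)
  rw [Real.dist_eq]
  have h8 : J T - ℓ = -(J ((⌈T⌉₊ : ℕ) : ℝ) - J T) + (J ((⌈T⌉₊ : ℕ) : ℝ) - ℓ) := by ring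
  rw [h8]
  refine lt_of_le_of_lt (abs_add_le _ _) ?_
  rw [abs_neg]
  have : C * Real.sqrt η ≤ δ := hηC
  linarith

end Pool.Agent.NH10.FH
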